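import Pool.Agent.H.MP_fb873c_an.N6

/-!
# MP_fb873c_an: diffeomorphisms outside the closure of a `C^1`-open set

`M` is a closed smooth manifold of dimension `n > 0` (charts in `Er n = ℝ^n`), `Dif n M` the group of its `C^∞`
diffeomorphisms, `crTop n M r` the `C^r` topology on it (`r = 1` and `r = ⊤`, the `C^∞` topology).

* `NoCx f`: `f` preserves no complex structure on `M`.
* `PerNR f`: at a point of minimal period `k` no eigenvalue of `D(f^k)` is real or of modulus one.
* `NoHom f`: `f` has no homoclinic point.
* `CountL f`: for all `k ≥ 1` the set `Fix(f^k)` is finite and its cardinality is the Lefschetz number `L(f^k)`.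
* `RobFin f`: `f` has periodic points, and they are `C^1`-robustly finitely many and hyperbolic.
* `EvenPair f`: `ρ` and `1/ρ` are eigenvalues of `f^*` on the even de Rham cohomology for some `ρ > 1`.
* `RobCard f c`: every `g` in a `C^∞`-neighbourhood of `f` has exactly `c` periodic points.
* `chi (Er n) M n = χ(M)`, `bEven n M` is the sum of the even Betti numbers.

In particular: if `χ(M) < 0` and no diffeomorphism of `M` has eigenvalues `ρ`, `1/ρ`, `ρ > 1`, on the even cohomology,
then the diffeomorphisms in a `C^1`-open and `C^∞`-dense set preserve no complex structure.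
-/

namespace Pool.Agent.Results.MP_fb873c_an.ExceptionalSet

open FB
open scoped Topology ContDiff Manifold

universe u

theorem result {n : ℕ} (hn : 0 < n) (M : Type u) [TopologicalSpace M] [ChartedSpace (Er n) M]
    [IsManifold (𝓡 n) ∞ M] [CompactSpace M] [T2Space M] :
    ∃ U : Set (Dif n M), IsOpen[crTop n M 1] U ∧ (∀ f ∈ U, NoCx f) ∧
      (∀ f : Dif n M, f ∉ closure[crTop n M ⊤] U → PerNR f ∧ NoHom f ∧ CountL f ∧ ¬ RobFin f ∧
        (EvenPair f ∨ RobCard f (chi (Er n) M n))) ∧
      (chi (Er n) M n < 0 → ((∀ f : Dif n M, ¬ EvenPair f) ∨ bEven n M ≤ 2) →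
        closure[crTop n M ⊤] U = Set.univ) :=
  ⟨UR n M ∪ UB n M, isOpen_URB, fun _ hf => URB_noCx hn hf, fun _ hf => ⟨(not_closure_URB hn hf).1,
    (not_closure_URB hn hf).2.1, (not_closure_URB hn hf).2.2.1, (not_closure_URB hn hf).2.2.2.1,
    rob_of_not_closure hn hf⟩,
    fun h1 h2 => dense_URB hn h1 h2⟩

end Pool.Agent.Results.MP_fb873c_an.ExceptionalSet
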