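import Pool.Agent.H.MP_fb873c_an.Z7
import Pool.Agent.H.MP_fb873c_an.S3

/-!
# Generic diffeomorphisms preserve no complex structure

`M` is a closed smooth manifold of dimension `n > 0` (charts in `Er n = ℝ^n`), `Dif n M` the group of its `C^∞`
diffeomorphisms, `crTop n M r` the `C^r` topology on it (`r = 1` and `r = ⊤`, the `C^∞` topology).
`Preserves f m X`: `f` preserves a complex structure on `M` which makes it isomorphic to the complex manifold
`X` (charts in `Ec m = ℂ^m`): for a diffeomorphism `Φ : M → X` the map `Φ ∘ f ∘ Φ⁻¹` is holomorphic.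
`hnum (Ec m) X q = h^{0,q}(X)`, the dimension of the Dolbeault cohomology group; `chi (Er n) M n = χ(M)`.

Proof: holomorphic Lefschetz formula for all iterates of `f` (proved from scratch with smoothing homotopies), the
linear recurrence for its right hand side, Kupka-Smale for bounded periods, Toeplitz determinants and Baire category.
-/

namespace Pool.Agent.Results.MP_fb873c_an.GenericDiffeo

open FB
open scoped Topology ContDiff Manifold

universe u

/-- There are `C¹`-open sets `U B`, `B = 0, 1, 2, …`, of diffeomorphisms such that elements of `U B` preserve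
only complex structures with `∑_q h^{0,q} > B`, elements of `⋂ B, U B` preserve no complex structure,
every diffeomorphism with a periodic point is in the `C^∞`-closure of `⋂ B, U B`, and `⋂ B, U B` is
`C^∞`-dense if `χ(M) ≠ 0`. -/
theorem result {n : ℕ} (hn : 0 < n) {M : Type u} [TopologicalSpace M] [ChartedSpace (Er n) M]
    [IsManifold (𝓡 n) ∞ M] [CompactSpace M] [T2Space M] :
    ∃ U : ℕ → Set (Dif n M),
      (∀ B, IsOpen[crTop n M 1] (U B)) ∧
      (∀ B, ∀ f ∈ U B, ∀ (m : ℕ) (X : Type u) [TopologicalSpace X] [ChartedSpace (Ec m) X]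
        [IsManifold 𝓘(ℂ, Ec m) ω X], Preserves f m X →
          B < ∑ q ∈ Finset.range (m + 1), hnum (Ec m) X q) ∧
      (∀ f ∈ ⋂ B, U B, ∀ (m : ℕ) (X : Type u) [TopologicalSpace X] [ChartedSpace (Ec m) X]
        [IsManifold 𝓘(ℂ, Ec m) ω X], ¬ Preserves f m X) ∧
      (∀ f : Dif n M, (∃ (x : M) (k : ℕ), 0 < k ∧ (f : M → M)^[k] x = x) →
        f ∈ closure[crTop n M ⊤] (⋂ B, U B)) ∧
      (chi (Er n) M n ≠ 0 → @Dense _ (crTop n M ⊤) (⋂ B, U B)) := by
  have key : ∀ B, ∀ f ∈ UH n M B, ∀ (m : ℕ) (X : Type u) [TopologicalSpace X] [ChartedSpace (Ec m) X]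
      [IsManifold 𝓘(ℂ, Ec m) ω X], Preserves f m X →
        B < ∑ q ∈ Finset.range (m + 1), hnum (Ec m) X q := by
    intro B f hf m X _ _ _ h
    simp only [hnum_eq]
    exact UH_hodge B f hf m X h
  refine ⟨UH n M, isOpen_UH, key, ?_, fun f hper => mem_closure_iInter hn f hper, fun h => ?_⟩
  · intro f hf m X _ _ _ h
    exact lt_irrefl _ (key (∑ q ∈ Finset.range (m + 1), hnum (Ec m) X q) f
      (Set.mem_iInter.1 hf (∑ q ∈ Finset.range (m + 1), hnum (Ec m) X q)) m X h)
  · exact dense_iInter hn (by rwa [chi_eq] at h)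

end Pool.Agent.Results.MP_fb873c_an.GenericDiffeo
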