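import Pool.Agent.H.MP_fb873c_an.V8

/-!
# MP_fb873c_an: a `C^∞`-open set of diffeomorphisms which preserve no complex structure

`M` is a closed smooth manifold of dimension `n > 0` (charts in `Er n = ℝ^n`), `Dif n M` the group of its `C^∞`
diffeomorphisms, `crTop n M r` the `C^r` topology on it (`r = 1` and `r = ⊤`, the `C^∞` topology).

* `NoCx f`: `f` preserves no complex structure on `M`.
* `NonIso f`: for all `N` there is `k ≥ N` such that infinitely many points have minimal period `k`.
* `PerNR f`: at a point of minimal period `k` no eigenvalue of `D(f^k)` is real or of modulus one.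
* `NoHom f`: `f` has no homoclinic point.
* `CountL f`: for all `k ≥ 1` the set `Fix(f^k)` is finite and its cardinality is the Lefschetz number `L(f^k)`.
* `ConstL f`: `L(f^k)` has a constant value `c ≠ 0` for all `k` in some progression `k = a (1 + b j)`, `j ≥ 0`.
* `EvenPair f`: `ρ` and `1/ρ` are eigenvalues of `f^*` on the even de Rham cohomology for some `ρ > 1`.
* `RobCard f 0`: no `g` in a `C^∞`-neighbourhood of `f` has a periodic point; `chi (Er n) M n = χ(M)`.
-/

namespace Pool.Agent.Results.MP_fb873c_an.OpenDense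

open FB
open scoped Topology ContDiff Manifold

universe u

theorem result {n : ℕ} (hn : 0 < n) (M : Type u) [TopologicalSpace M] [ChartedSpace (Er n) M]
    [IsManifold (𝓡 n) ∞ M] [CompactSpace M] [T2Space M] :
    ∃ U W : Set (Dif n M), IsOpen[crTop n M 1] U ∧ IsOpen[crTop n M ⊤] W ∧ W ⊆ U ∧
      U ⊆ closure[crTop n M ⊤] W ∧ (∀ f ∈ W, NoCx f) ∧ (∀ f ∈ U, ¬ NoCx f → NonIso f) ∧
      ∀ f : Dif n M, f ∉ closure[crTop n M ⊤] W → PerNR f ∧ NoHom f ∧ CountL f ∧ ¬ ConstL f ∧
        (EvenPair f ∨ chi (Er n) M n = 0 ∧ RobCard f 0) := by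
  refine ⟨UR n M ∪ U3 n M, UR n M ∪ W3 n M, ?_, ?_, ?_, ?_, ?_, ?_, fun f hf => v8_rob hn hf⟩
  · let T := crTop n M 1
    exact IsOpen.union KT.isOpen_UR isOpen_U3
  · let T := crTop n M ⊤
    exact IsOpen.union (D4_top KT.isOpen_UR) isOpen_W3
  · exact Set.union_subset_union_right _ fun _ h => h.1
  · rintro f (hf | hf)
    · let T := crTop n M ⊤
      exact subset_closure (Or.inl hf)
    · exact U3_subset hf
  · rintro f (hf | hf) m X _ _ _
    · exact KT.UR_not_preserves hf m X
    · exact W3_not_preserves hf m X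
  · rintro f (hf | hf) hc
    · exact absurd (UR_noCx hf) hc
    · by_contra hno
      apply hc
      intro m X _ _ _ h
      exact hno (U3_nonIso hf h)

end Pool.Agent.Results.MP_fb873c_an.OpenDense
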