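import Pool.Agent.H.MP_fb873c_an.helper97.E4

/-!
# MP_fb873c_an: `C^1`-open and `C^∞`-dense sets, no hypothesis on the Euler characteristic

`M` is a closed smooth manifold of dimension `n > 0` (charts in `Er n = ℝ^n`), `Dif n M` the group of its `C^∞`
diffeomorphisms, `crTop n M r` the `C^r` topology on it (`r = 1` and `r = ⊤`, the `C^∞` topology).
`Preserves f m X`: `f` preserves a complex structure on `M` which makes it isomorphic to the complex manifold
`X` (charts in `Ec m = ℂ^m`): for a diffeomorphism `Φ : M → X` the map `Φ ∘ f ∘ Φ⁻¹` is holomorphic.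

* `hnum (Ec m) X q = h^{0,q}(X)`, the dimension of the Dolbeault cohomology group; `todd m X = ∑ (-1)^q h^{0,q}(X)`.
* `NoPer n M N`: the diffeomorphisms `f` such that `f^k` has no fixed point for `1 ≤ k ≤ N`.
* `Aper f`: `f` has no periodic point.
* `EvenPair f`: `ρ` and `1/ρ` are eigenvalues of `f^*` on the even de Rham cohomology for some `ρ > 1`.
* `chi (Er n) M n = χ(M)`, `bEven n M` is the sum of the even Betti numbers.

Example (with classical facts): if `M` is a closed connected `4`-manifold then `∑_q h^{0,q}(X)` is bounded by a number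
`N` for all complex structures `X` on `M` and `todd 2 X = (χ(X) + σ(X)) / 4`.  So if `χ(M) = 0` and the signature
`σ(M)` is not zero then the elements of the `C^1`-open and `C^∞`-dense set `U N` preserve no complex structure.
-/

namespace Pool.Agent.Results.MP_fb873c_an.ZeroEuler

open FB
open scoped Topology ContDiff Manifold

universe u

/-- The alternating sum of the Hodge numbers `h^{0,q}(X)`, the Todd genus of `X`. -/
noncomputable def todd (m : ℕ) (X : Type u) [TopologicalSpace X] [ChartedSpace (Ec m) X] : ℤ :=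
  ∑ q ∈ Finset.range (m + 1), (-1 : ℤ) ^ q * (hnum (Ec m) X q : ℤ)

/-- There are `C^1`-open sets `U N` of diffeomorphisms with `C^∞`-dense intersection, such that if `f ∈ U N` preserves
a complex structure `X` then `∑ h^{0,q}(X) > N`, or `f` has no periodic point of period at most `N` and
`∑ (-1)^q h^{0,q}(X) = 0`; if `f` is in all `U N` then `f` has no periodic points and `∑ (-1)^q h^{0,q}(X) = 0`.
If `χ(M) = 0` and no diffeomorphism has eigenvalues `ρ`, `1/ρ`, `ρ > 1`, on the even cohomology (or the sum of the even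
Betti numbers is at most `2`), then there are `C^1`-open and `C^∞`-dense sets `U N` such that the elements of `U N`
which preserve a complex structure have no periodic point of period at most `N`, and a `C^∞`-open and `C^∞`-dense set
`W` such that if `f ∈ W` preserves a complex structure `X`, then `f` has no periodic points and
`∑ (-1)^q h^{0,q}(X) = 0`. -/
theorem result {n : ℕ} (hn : 0 < n) (M : Type u) [TopologicalSpace M] [ChartedSpace (Er n) M]
    [IsManifold (𝓡 n) ∞ M] [CompactSpace M] [T2Space M] :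
    (∃ U : ℕ → Set (Dif n M), (∀ N, IsOpen[crTop n M 1] (U N)) ∧
      @Dense _ (crTop n M ⊤) (⋂ N, U N) ∧
      (∀ N, ∀ f ∈ U N, ∀ (m : ℕ) (X : Type u) [TopologicalSpace X] [ChartedSpace (Ec m) X]
        [IsManifold 𝓘(ℂ, Ec m) ω X], Preserves f m X →
          N < ∑ q ∈ Finset.range (m + 1), hnum (Ec m) X q ∨ f ∈ NoPer n M N ∧ todd m X = 0) ∧
      (∀ f ∈ ⋂ N, U N, ∀ (m : ℕ) (X : Type u) [TopologicalSpace X] [ChartedSpace (Ec m) X]
        [IsManifold 𝓘(ℂ, Ec m) ω X], Preserves f m X → Aper f ∧ todd m X = 0)) ∧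
    (chi (Er n) M n = 0 → ((∀ f : Dif n M, ¬ EvenPair f) ∨ bEven n M ≤ 2) →
      ∃ (U : ℕ → Set (Dif n M)) (W : Set (Dif n M)),
        (∀ N, IsOpen[crTop n M 1] (U N)) ∧ (∀ N, @Dense _ (crTop n M ⊤) (U N)) ∧
        IsOpen[crTop n M ⊤] W ∧ @Dense _ (crTop n M ⊤) W ∧
        (∀ N, ∀ f ∈ U N, ∀ (m : ℕ) (X : Type u) [TopologicalSpace X] [ChartedSpace (Ec m) X]
          [IsManifold 𝓘(ℂ, Ec m) ω X], Preserves f m X → f ∈ NoPer n M N ∧
            (N < ∑ q ∈ Finset.range (m + 1), hnum (Ec m) X q ∨ todd m X = 0)) ∧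
        (∀ f ∈ W, ∀ (m : ℕ) (X : Type u) [TopologicalSpace X] [ChartedSpace (Ec m) X]
          [IsManifold 𝓘(ℂ, Ec m) ω X], Preserves f m X → Aper f ∧ todd m X = 0)) :=
  ⟨⟨UZ n M, isOpen_UZ, dense_iInter_UZ hn, fun N f hf m X _ _ _ h => UZ_main hf m X h,
    fun f hf m X _ _ _ h => iInter_UZ hf m X h⟩,
   fun h1 h2 => ⟨UP n M, WP n M, isOpen_UP, dense_UP hn h1 h2, isOpen_WP, dense_WP hn h2,
    fun N f hf m X _ _ _ h => UP_main hn hf m X h, fun f hf m X _ _ _ h => WP_main hf m X h⟩⟩

end Pool.Agent.Results.MP_fb873c_an.ZeroEuler
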